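import Mathlib

set_option autoImplicit false

open Filter
open scoped Topology ZeroAtInfty

namespace Pool.Agent.Results.MP_739307_an.Depends

/-- A sequence that is an approximate identity. -/
def AI {A : Type} [NonUnitalNormedRing A] (e : ℕ → A) : Prop :=
  ∀ x, Tendsto (fun j => ‖e j * x - x‖) atTop (𝓝 0) ∧ Tendsto (fun j => ‖x * e j - x‖) atTop (𝓝 0)

/-- The condition `C(a, l, e)`. -/
def Cond {A : Type} [NonUnitalNormedRing A] [NormedSpace ℂ A] (a : A) (l : ℂ) (e : ℕ → A) : Prop :=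
  ∃ r : ℕ → A, AI fun j => (l • e j - a) * r j

lemma cc : cocompact ℕ = atTop := by rw [cocompact_eq_cofinite, Nat.cofinite_eq_atTop]

noncomputable def w (c : ℂ) (j : ℕ) : C₀(ℕ, ℂ) where
  toFun n := if n = 0 then c else if n ≤ j then 1 else 0
  continuous_toFun := continuous_of_discreteTopology
  zero_at_infty' := by
    rw [cc]
    refine tendsto_const_nhds.congr' (eventually_atTop.2 ⟨j + 1, fun n hn => ?_⟩)
    simp only
    rw [if_neg (by omega), if_neg (by omega)]

lemma w_apply (c : ℂ) (j n : ℕ) : w c j n = if n = 0 then c else if n ≤ j then 1 else 0 := rfl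

lemma ev (x : C₀(ℕ, ℂ)) (n : ℕ) : ‖x n‖ ≤ ‖x‖ := x.toBCF.norm_coe_le_norm n

lemma ai (c : ℕ → ℂ) (hc : Tendsto c atTop (𝓝 1)) : AI fun j => w (c j) j := by
  intro x
  suffices h : Tendsto (fun j => ‖w (c j) j * x - x‖) atTop (𝓝 0) from
    ⟨h, by simpa only [mul_comm] using h⟩
  refine Metric.tendsto_nhds.2 fun ε hε => ?_
  have h1 : Tendsto (fun j => ‖c j * x 0 - x 0‖) atTop (𝓝 0) := by
    simpa using ((hc.mul_const (x 0)).sub_const (x 0)).norm
  have h2 : Tendsto (fun n => ‖x n‖) atTop (𝓝 0) := by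
    simpa [cc] using (zero_at_infty x).norm
  obtain ⟨N, hN⟩ := eventually_atTop.1 (h2.eventually (ge_mem_nhds (half_pos hε)))
  filter_upwards [h1.eventually (ge_mem_nhds (half_pos hε)), eventually_ge_atTop N] with j hj hjN
  rw [dist_zero_right, norm_norm]
  refine lt_of_le_of_lt ((BoundedContinuousFunction.norm_le (f := (w (c j) j * x - x).toBCF)
    (half_pos hε).le).2 fun n => ?_) (half_lt_self hε)
  change ‖w (c j) j n * x n - x n‖ ≤ _
  rw [w_apply]
  split_ifs with a b
  · rw [a]; exact hj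
  · simpa using (half_pos hε).le
  · simpa using hN n (by omega)

theorem result : ∃ (A : Type) (_ : NonUnitalNormedRing A) (_ : NormedSpace ℂ A)
    (_ : IsScalarTower ℂ A A) (_ : SMulCommClass ℂ A A), CompleteSpace A ∧
    (¬ ∃ u : A, ∀ x, u * x = x ∧ x * u = x) ∧
    ∃ (a : A) (l : ℂ) (e f : ℕ → A), AI e ∧ AI f ∧ Cond a l e ∧ ¬ Cond a l f := by
  refine ⟨C₀(ℕ, ℂ), inferInstance, inferInstance, inferInstance, inferInstance, inferInstance, ?_,
    w 1 0, 1, fun j => w (1 + 1 / (j + 1)) j, fun j => w 1 j, ai _ ?_, ai _ tendsto_const_nhds,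
    ⟨fun j => w (j + 1) j, ?_⟩, ?_⟩
  · rintro ⟨u, hu⟩
    have h : ∀ n, u n = 1 := fun n => by
      have : u n * w 1 n n = w 1 n n := congrArg (fun y : C₀(ℕ, ℂ) => y n) (hu (w 1 n)).1
      simpa [w_apply] using this
    have := zero_at_infty u
    rw [show (u : ℕ → ℂ) = fun _ => 1 from funext h, cc] at this
    exact one_ne_zero (tendsto_nhds_unique tendsto_const_nhds this)
  · simpa using (tendsto_one_div_add_atTop_nhds_zero_nat (𝕜 := ℂ)).const_add 1
  · convert ai _ tendsto_const_nhds using 2 with j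
    ext n
    change ((1 : ℂ) • w (1 + 1 / (j + 1)) j n - w 1 0 n) * w (j + 1) j n = w 1 j n
    have : (j : ℂ) + 1 ≠ 0 := Nat.cast_add_one_ne_zero j
    simp only [w_apply]
    split_ifs <;> first | omega | simp [this]
  · rintro ⟨r, hr⟩
    have h := ge_of_tendsto' (hr (w 1 0)).1 fun j => (show (1 : ℝ) ≤ _ from by
      refine le_trans (le_of_eq ?_) (ev _ 0)
      change 1 = ‖((1 : ℂ) • w 1 j 0 - w 1 0 0) * r j 0 * w 1 0 0 - w 1 0 0‖
      simp [w_apply])
    linarith

end Pool.Agent.Results.MP_739307_an.Depends
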